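import Pool.Agent.H77.KGS.Asm

/-!
# Generically `(n + 2)`-transitive groups which are products of simple groups modulo a solvable group

Let `(G, S)` be a permutation group of finite Morley rank, faithful and transitive, `G` connected,
`n = rk S ≥ 1`. Assume that `G` has a solvable normal subgroup such that the quotient is isomorphic,
as an abstract group, to a finite direct product of simple algebraic groups of adjoint types `A`,
`D` or `E`, over any algebraically closed fields (the factors may have different types and different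
fields, the fields may have any rank, any characteristic and any additional structure; no factor is
allowed too, so all solvable groups are included; the solvable normal subgroup is arbitrary). If
`(G, S)` is generically `t`-transitive, then

1. `t ≤ n + 2`;
2. if `t = n + 2` then `G` is isomorphic to `PSL_(n+1)(F)` with its natural action on the projective
   space `P^n(F)`, `F` an algebraically closed field.

This is the conjecture of Borovik and Cherlin for these groups, in all ambient theories.

Groups of finite Morley rank are given by the axioms of Borovik and Poizat for the definable sets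
and their ranks (`RankedUniverse`). As usual in this subject quotients by definable equivalence
relations are needed: the theorem is stated for any class of ranked universes which is closed under
quotients (`ClosedUnderQuotients`), for example the universes of all sets interpretable in
structures of finite Morley rank.
-/

set_option autoImplicit false

open Set Matrix

namespace Pool.Agent.Results.MP_9d0bb7_lc.ProductsADE

/-! ### Chevalley groups with simply laced diagrams -/

section

variable {l : ℕ}

/-- the bilinear form with matrix `C` on `ℤ^l` -/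
def form (C : Matrix (Fin l) (Fin l) ℤ) (v w : Fin l → ℤ) : ℤ := v ⬝ᵥ (C *ᵥ w)

/-- `C` is the Cartan matrix of a connected simply laced Dynkin diagram (`A_l`, `D_l`, `E_6`, `E_7`,
`E_8`): symmetric, with diagonal entries `2`, other entries `0` or `-1`, positive definite and
connected -/
structure IsCartan (C : Matrix (Fin l) (Fin l) ℤ) : Prop where
  symm : ∀ i j, C i j = C j i
  diag : ∀ i, C i i = 2
  off : ∀ i j, i ≠ j → C i j = 0 ∨ C i j = -1
  pos : ∀ v : Fin l → ℤ, v ≠ 0 → 0 < form C v v
  conn : ∀ s : Set (Fin l), s.Nonempty → sᶜ.Nonempty → ∃ i ∈ s, ∃ j ∈ sᶜ, C i j ≠ 0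

/-- some vertex of the diagram has three neighbours: the types `D_l` (`l ≥ 4`), `E_6`, `E_7`,
`E_8` -/
def HasBranch (C : Matrix (Fin l) (Fin l) ℤ) : Prop :=
  ∃ b i j m : Fin l, i ≠ j ∧ i ≠ m ∧ j ≠ m ∧ C b i = -1 ∧ C b j = -1 ∧ C b m = -1

/-- the roots: the vectors `β` of the root lattice `ℤ^l` with `(β, β) = 2`, in the coordinates
given by the simple roots -/
abbrev Root (C : Matrix (Fin l) (Fin l) ℤ) : Type := {β : Fin l → ℤ // form C β β = 2}

/-- the matrix with `ε(v, w) = (-1)^(v ⬝ lower C w)` -/
def lower (C : Matrix (Fin l) (Fin l) ℤ) : Matrix (Fin l) (Fin l) ℤ :=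
  Matrix.of fun i j => if i = j then 1 else if j < i then C i j else 0

/-- the signs `ε(β, γ)` of the structure constants, `[e_β, e_γ] = ε(β, γ) e_(β+γ)` -/
def sign (C : Matrix (Fin l) (Fin l) ℤ) (v w : Fin l → ℤ) : ℤ :=
  if Even (v ⬝ᵥ (lower C *ᵥ w)) then 1 else -1

/-- the Lie algebra over `F`: the basis vectors `e_γ` (`γ` a root) and the Cartan algebra `F^l`, the
element `h` of `F^l` has the coordinates `h_i = α_i(h)`, `α_1, ..., α_l` the simple roots -/
abbrev LieSpace (C : Matrix (Fin l) (Fin l) ℤ) (F : Type) : Type := (Root C → F) × (Fin l → F)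

variable {C : Matrix (Fin l) (Fin l) ℤ} {F : Type} [Field F]

/-- the coefficient of `e_w`, zero if `w` is not a root -/
def coeff (v : Root C → F) (w : Fin l → ℤ) : F := if h : form C w w = 2 then v ⟨w, h⟩ else 0

/-- the value `β(h)` -/
def value (β : Fin l → ℤ) (h : Fin l → F) : F := ∑ i, (β i : F) * h i

/-- the coroot `h_β`, `α_i(h_β) = (α_i, β)` -/
def coroot (C : Matrix (Fin l) (Fin l) ℤ) (F : Type) [Field F] (β : Fin l → ℤ) : Fin l → F :=
  fun i => (((C *ᵥ β) i : ℤ) : F)

/-- the root elements `X_β(t)`: `e_γ ↦ e_γ + t ε(β, γ) e_(β+γ)` (`γ ≠ -β`; the second term is zero if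
`β + γ` is not a root), `e_(-β) ↦ e_(-β) - t h_β + t² e_β`, `h ↦ h - t β(h) e_β` -/
def rootElement (β : Root C) (t : F) (v : LieSpace C F) : LieSpace C F :=
  (fun γ => v.1 γ + t * ((sign C β.1 (γ.1 - β.1) : F) * coeff v.1 (γ.1 - β.1)) +
      (if γ = β then t ^ 2 * coeff v.1 (-β.1) - t * value β.1 v.2 else 0),
    fun i => v.2 i - t * coeff v.1 (-β.1) * coroot C F β.1 i)

/-- the adjoint Chevalley group, generated by the root elements -/
def ChevalleyGroup (C : Matrix (Fin l) (Fin l) ℤ) (F : Type) [Field F] :
    Subgroup (Equiv.Perm (LieSpace C F)) :=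
  Subgroup.closure {g | ∃ (β : Root C) (t : F), ∀ v, g v = rootElement β t v}

end

/-! ### Groups of finite Morley rank -/

/-- A ranked universe on `M` (axioms of Borovik and Poizat): the definable subsets of `M ^ ι`, `ι` a
finite set, and their ranks. The rank of the empty set plays no role. -/
structure RankedUniverse (M : Type) where
  /-- `Definable ι A`: the subset `A` of `M ^ ι` is definable -/
  Definable : (ι : Type) → [Finite ι] → Set (ι → M) → Prop
  /-- the rank of a subset of `M ^ ι` -/
  rank : (ι : Type) → [Finite ι] → Set (ι → M) → ℕ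
  full : ∀ (ι : Type) [Finite ι], Definable ι univ
  inter : ∀ (ι : Type) [Finite ι] (A B : Set (ι → M)), Definable ι A → Definable ι B →
    Definable ι (A ∩ B)
  compl : ∀ (ι : Type) [Finite ι] (A : Set (ι → M)), Definable ι A → Definable ι Aᶜ
  point : ∀ (ι : Type) [Finite ι] (i : ι) (c : M), Definable ι {x | x i = c}
  diag : ∀ (ι : Type) [Finite ι] (i j : ι), Definable ι {x | x i = x j}
  pull : ∀ (ι κ : Type) [Finite ι] [Finite κ] (f : ι → κ) (A : Set (ι → M)), Definable ι A →
    Definable κ {y | y ∘ f ∈ A}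
  image : ∀ (ι κ : Type) [Finite ι] [Finite κ] (f : ι → κ) (A : Set (κ → M)), Definable κ A →
    Definable ι ((fun y => y ∘ f) '' A)
  /-- the rank of `A` is at least `n + 1` if and only if `A` contains infinitely many pairwise
  disjoint definable sets of rank at least `n` -/
  monotone : ∀ (ι : Type) [Finite ι] (A : Set (ι → M)) (n : ℕ), Definable ι A → A.Nonempty →
    (n + 1 ≤ rank ι A ↔ ∃ B : ℕ → Set (ι → M),
      (∀ i, Definable ι (B i) ∧ (B i).Nonempty ∧ B i ⊆ A ∧ n ≤ rank ι (B i)) ∧
        ∀ i j, i ≠ j → Disjoint (B i) (B j))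
  /-- for a definable function `f` from `A` to `B`, the set of the elements of `B` whose fibre has
  rank `n` is definable -/
  definable : ∀ (ι κ : Type) [Finite ι] [Finite κ] (A : Set (ι → M)) (B : Set (κ → M))
    (f : (ι → M) → (κ → M)) (n : ℕ), Definable ι A → Definable κ B → MapsTo f A B →
    Definable (ι ⊕ κ) {z | z ∘ Sum.inl ∈ A ∧ z ∘ Sum.inr = f (z ∘ Sum.inl)} →
    Definable κ {b | b ∈ B ∧ {a | a ∈ A ∧ f a = b}.Nonempty ∧ rank ι {a | a ∈ A ∧ f a = b} = n}
  /-- if all fibres of a definable function from `A` onto `B` have rank `n`, then the rank of `A` is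
  the rank of `B` plus `n` -/
  additive : ∀ (ι κ : Type) [Finite ι] [Finite κ] (A : Set (ι → M)) (B : Set (κ → M))
    (f : (ι → M) → (κ → M)) (n : ℕ), Definable ι A → Definable κ B → A.Nonempty → f '' A = B →
    Definable (ι ⊕ κ) {z | z ∘ Sum.inl ∈ A ∧ z ∘ Sum.inr = f (z ∘ Sum.inl)} →
    (∀ b ∈ B, rank ι {a | a ∈ A ∧ f a = b} = n) → rank ι A = rank κ B + n

section

variable {G S : Type} [Group G] [MulAction G S]

/-- `(G, S)` is definable in the ranked universe: the group `G`, its multiplication and its action on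
the set `S`. The universe may contain more definable sets. -/
structure IsPermutationGroup (U : RankedUniverse (G ⊕ S)) : Prop where
  group : U.Definable Unit {x | ∃ g : G, x () = Sum.inl g}
  mul : U.Definable (Fin 3)
    {x | ∃ g h : G, x 0 = Sum.inl g ∧ x 1 = Sum.inl h ∧ x 2 = Sum.inl (g * h)}
  action : U.Definable (Fin 3)
    {x | ∃ (g : G) (s : S), x 0 = Sum.inl g ∧ x 1 = Sum.inr s ∧ x 2 = Sum.inr (g • s)}

/-- the rank of `G` -/
def rankG (U : RankedUniverse (G ⊕ S)) : ℕ := U.rank Unit {x | ∃ g : G, x () = Sum.inl g}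

/-- the rank of `S` -/
def rankS (U : RankedUniverse (G ⊕ S)) : ℕ := U.rank Unit {x | ∃ s : S, x () = Sum.inr s}

/-- the rank of a set of `μ`-tuples of elements of `S` -/
def rankT (U : RankedUniverse (G ⊕ S)) {μ : ℕ} (T : Set (Fin μ → S)) : ℕ :=
  U.rank (Fin μ) ((fun t i => Sum.inr (t i)) '' T)

/-- generic `μ`-transitivity: the complement of some orbit of `G` on `S ^ μ` is empty or of smaller
rank than `S ^ μ` -/
def GenericallyTransitive (U : RankedUniverse (G ⊕ S)) (μ : ℕ) : Prop :=
  ∃ s : Fin μ → S, (MulAction.orbit G s)ᶜ = ∅ ∨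
    rankT U (MulAction.orbit G s)ᶜ < rankT U (univ : Set (Fin μ → S))

/-- `G` is connected: no proper definable subgroup of finite index -/
def IsConnected (U : RankedUniverse (G ⊕ S)) : Prop := ∀ L : Subgroup G,
  U.Definable Unit {x | ∃ g ∈ L, x () = Sum.inl g} → L.FiniteIndex → L = ⊤

/-- `(G, S)` is isomorphic to `PSL_(n+1)(F)` with its natural action on `P^n(F)`, the class of the
matrix `A` sends the line of `v` to the line of `A v` -/
def IsNaturalAction (G S F : Type) [Group G] [MulAction G S] [Field F] (n : ℕ) : Prop :=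
  ∃ (φ : G ≃* ProjectiveSpecialLinearGroup (Fin (n + 1)) F)
    (b : S ≃ Projectivization F (Fin (n + 1) → F)),
    ∀ (g : G) (A : SpecialLinearGroup (Fin (n + 1)) F), φ g = QuotientGroup.mk A →
      ∀ (x : S) (v : Fin (n + 1) → F) (hv : v ≠ 0) (hw : A.val *ᵥ v ≠ 0),
        b x = Projectivization.mk F v hv → b (g • x) = Projectivization.mk F (A.val *ᵥ v) hw

end

/-! ### Quotients -/

/-- the universe `U'` on `M'` extends the universe `U` on `M`, `e` the inclusion of `M` in `M'` -/
structure Extends {M M' : Type} (U : RankedUniverse M) (U' : RankedUniverse M') (e : M → M') :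
    Prop where
  inj : Function.Injective e
  definable : ∀ (ι : Type) [Finite ι] (A : Set (ι → M)),
    U'.Definable ι ((fun x => e ∘ x) '' A) ↔ U.Definable ι A
  rank : ∀ (ι : Type) [Finite ι] (A : Set (ι → M)), U.Definable ι A → A.Nonempty →
    U'.rank ι ((fun x => e ∘ x) '' A) = U.rank ι A

/-- A class of ranked universes is closed under quotients: if `E` is a definable equivalence
relation on `M ^ ι` (`ι` a finite set), then the universe has an extension in the class which
contains the set of the classes of `E`, as a set of elements `q x` of `M'`, and the map `q`. -/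
def ClosedUnderQuotients (C : ∀ M : Type, RankedUniverse M → Prop) : Prop :=
  ∀ (M : Type) (U : RankedUniverse M), C M U → ∀ (ι : Type) [Finite ι] (E : Setoid (ι → M)),
    U.Definable (ι ⊕ ι) {z | E.r (z ∘ Sum.inl) (z ∘ Sum.inr)} →
    ∃ (M' : Type) (U' : RankedUniverse M') (e : M → M') (q : (ι → M) → M'), C M' U' ∧
      Extends U U' e ∧ (∀ x y, q x = q y ↔ E.r x y) ∧
      U'.Definable (ι ⊕ Unit) {z | ∃ x : ι → M, z ∘ Sum.inl = e ∘ x ∧ z (Sum.inr ()) = q x}

/-! ### The groups -/

/-- the simple algebraic groups (adjoint, as abstract groups) of the types `A`, `D`, `E` over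
algebraically closed fields -/
def IsSimpleADE (L : Type) [Group L] : Prop := ∃ (F : Type) (_ : Field F) (_ : IsAlgClosed F),
  (∃ m : ℕ, 2 ≤ m ∧ Nonempty (L ≃* ProjectiveSpecialLinearGroup (Fin m) F)) ∨
  ∃ (l : ℕ) (C : Matrix (Fin l) (Fin l) ℤ), IsCartan C ∧ HasBranch C ∧
    Nonempty (L ≃* ChevalleyGroup C F)

/-- a homomorphism from `G` onto a finite product of such groups, with solvable kernel -/
def IsProductModSolvable (G : Type) [Group G] : Prop :=
  ∃ (I : Type) (_ : Finite I) (L : I → Type) (_ : ∀ i, Group (L i)) (π : G →* ∀ i, L i),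
    Function.Surjective π ∧ Group.IsSolvable π.ker ∧ ∀ i, IsSimpleADE (L i)

/-! ### Relation to the definitions in the library -/

section

open Pool.Agent.H77.BC

/-- the same structure -/
def toRU {M : Type} (U : RankedUniverse M) : RU M where
  Def := U.Definable
  rk := U.rank
  full := U.full
  inter := U.inter
  compl := U.compl
  point := U.point
  diag := U.diag
  pull := U.pull
  image := U.image
  monotone := U.monotone
  definable := U.definable
  additive := U.additive

/-- the same structure -/
def ofRU {M : Type} (U : RU M) : RankedUniverse M where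
  Definable := U.Def
  rank := U.rk
  full := U.full
  inter := U.inter
  compl := U.compl
  point := U.point
  diag := U.diag
  pull := U.pull
  image := U.image
  monotone := U.monotone
  definable := U.definable
  additive := U.additive

theorem toQClosed {C : ∀ M : Type, RankedUniverse M → Prop} (hC : ClosedUnderQuotients C) :
    Pool.Agent.H77.KG.QClosed (fun M U => C M (ofRU U)) := by
  intro M U hU ι _ E hE
  obtain ⟨M', U', e, q, h1, h2, h3, h4⟩ := hC M (ofRU U) hU ι E hE
  exact ⟨M', toRU U', e, q, h1, ⟨h2.inj, h2.definable, h2.rank⟩, h3, h4⟩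

variable {G S : Type} [Group G] [MulAction G S] (U : RankedUniverse (G ⊕ S))

theorem toPG (h : IsPermutationGroup U) : PG G S (toRU U) := ⟨h.group, h.mul, h.action⟩

theorem rankS_eq : rankS U = (toRU U).R (univ : Set S) := by
  unfold rankS RU.R
  have e : {x : Unit → G ⊕ S | ∃ s : S, x () = Sum.inr s} =
      Cod.c (M := G ⊕ S) '' (univ : Set S) := by
    ext x
    constructor
    · rintro ⟨g, hg⟩
      refine ⟨g, mem_univ _, ?_⟩
      funext i
      exact hg.symm
    · rintro ⟨g, -, rfl⟩
      exact ⟨g, rfl⟩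
  rw [e]
  rfl

/-- tuples with the obvious code -/
def Raw (M : Type) (μ : ℕ) : Type := Fin μ → M

instance codRaw {M : Type} {μ : ℕ} : Cod M (Raw M μ) :=
  ⟨Fin μ, inferInstance, fun x => x, fun _ _ h => h⟩

theorem rankT_eq (h : IsPermutationGroup U) (hB : ∀ {M : Type} (U : RU M), RKB U) {μ : ℕ}
    (T : Set (Fin μ → S)) (hT : (toRU U).D T) (hne : T.Nonempty) :
    rankT U T = (toRU U).R T := by
  have hRF : Ful (toRU U) (Raw (G ⊕ S) μ) := ⟨by
    unfold RU.D
    have e : Cod.c (M := G ⊕ S) '' (univ : Set (Raw (G ⊕ S) μ)) = univ := by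
      ext x
      exact ⟨fun _ => mem_univ _, fun _ => ⟨x, mem_univ _, rfl⟩⟩
    rw [e]
    exact U.full _⟩
  have _ := (toPG U h).fulS
  -- the inclusion of the tuples of S in the tuples of G ⊕ S
  let v : (Fin μ → S) → Raw (G ⊕ S) μ := fun t i => Sum.inr (t i)
  have hv : DFn (toRU U) v := DFn_of_code (fun i => (i, ())) fun b => rfl
  have h1 := (hB (toRU U)).inj hT hv hne (fun a _ b _ hab => funext fun i =>
    Sum.inr_injective (congrFun hab i))
  rw [← h1]
  unfold rankT RU.R
  have e : Cod.c (M := G ⊕ S) '' (v '' T) = (fun t (i : Fin μ) => (Sum.inr (t i) : G ⊕ S)) '' T := by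
    rw [image_image]
    rfl
  rw [e]
  rfl

theorem toGenTr (h : IsPermutationGroup U) (hB : ∀ {M : Type} (U : RU M), RKB U) {μ : ℕ}
    (hg : GenericallyTransitive U μ) : GenTr (toRU U) μ := by
  obtain ⟨s, hs⟩ := hg
  refine ⟨s, fun hne => ?_⟩
  have _ := (toPG U h).ful
  have _ := (toPG U h).fulS
  have e : {x : Fin μ → S | ¬ ∃ g : G, ∀ i, x i = g • s i} = (MulAction.orbit G s)ᶜ := by
    ext x
    refine not_congr ?_
    constructor
    · rintro ⟨g, hg⟩
      exact ⟨g, funext fun i => (hg i).symm⟩
    · rintro ⟨g, hg⟩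
      exact ⟨g, fun i => (congrFun hg i).symm⟩
  have hD : (toRU U).D {x : Fin μ → S | ¬ ∃ g : G, ∀ i, x i = g • s i} := by
    refine D_not (D_exists (D_forall_fin fun i => D_eqf (DFn_comp (DFn_apply i) DFn_fst) ?_))
    exact DFn_comp (g := fun p : G × S => p.1 • p.2) (toPG U h).dact
      (DFn_pair DFn_snd (DFn_const (s i)))
  rw [e] at hne hD ⊢
  rcases hs with hs | hs
  · rw [hs] at hne
    exact (not_nonempty_empty hne).elim
  · rwa [rankT_eq U h hB _ hD hne, rankT_eq U h hB _ Ful.full ⟨s, mem_univ _⟩] at hs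

theorem toConn (h : IsPermutationGroup U) (hc : IsConnected U) :
    Conn (toRU U) (⊤ : Subgroup G) := by
  have _ := (toPG U h).ful
  have hDG : DG (toRU U) G := (toPG U h).dg
  refine ⟨by simpa using (Ful.full : (toRU U).D (univ : Set G)), fun L _ hL hr => ?_⟩
  have h1 := (Pool.Agent.H77.BCP.a_GRA (toRU U) (⊤ : Subgroup G) L
    (by simpa using (Ful.full : (toRU U).D (univ : Set G))) hL le_top).2 hr
  refine hc L ?_ ⟨by rwa [Subgroup.relIndex_top_right] at h1⟩
  have e : {x : Unit → G ⊕ S | ∃ g ∈ L, x () = Sum.inl g} = Cod.c (M := G ⊕ S) '' (L : Set G) := by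
    ext x
    constructor
    · rintro ⟨g, hg, hx⟩
      refine ⟨g, hg, ?_⟩
      funext i
      exact hx.symm
    · rintro ⟨g, hg, rfl⟩
      exact ⟨g, hg, rfl⟩
  rw [e]
  exact hL

theorem toKGr {G : Type} [Group G] (h : IsProductModSolvable G) :
    Pool.Agent.H77.KG.KGr Pool.Agent.H77.KG.SA G := by
  obtain ⟨I, hI, L, iL, π, h1, h2, h3⟩ := h
  refine ⟨I, hI, L, iL, π, h1, h2, fun i => ?_⟩
  obtain ⟨F, iF, iA, h4⟩ := h3 i
  refine ⟨F, iF, iA, ?_⟩
  rcases h4 with h4 | ⟨l, C, hC, hB, hL⟩
  · exact Or.inl h4
  · exact Or.inr ⟨l, C, ⟨hC.symm, hC.diag, hC.off, hC.pos, hC.conn⟩, hB, hL⟩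

end

/-- The Borovik-Cherlin conjecture for the connected groups which are, modulo a solvable normal
subgroup, products of simple algebraic groups of types `A`, `D`, `E`. -/
theorem result (C : ∀ M : Type, RankedUniverse M → Prop) (hC : ClosedUnderQuotients C)
    {G S : Type} [Group G] [MulAction G S] [FaithfulSMul G S] [MulAction.IsPretransitive G S]
    (U : RankedUniverse (G ⊕ S)) (hCU : C (G ⊕ S) U) (hU : IsPermutationGroup U)
    (hG : IsConnected U) (hP : IsProductModSolvable G) (hS : 1 ≤ rankS U) (t : ℕ)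
    (ht : GenericallyTransitive U t) :
    t ≤ rankS U + 2 ∧ (t = rankS U + 2 →
      ∃ (F : Type) (_ : Field F) (_ : IsAlgClosed F), IsNaturalAction G S F (rankS U)) := by
  have h := Pool.Agent.H77.KGS.a_FNK (fun M U => C M (ofRU U)) (toQClosed hC) (toRU U) hCU
    (toPG U hU) (toConn U hU hG) ‹_› ‹_› (toKGr hP) (by rwa [← rankS_eq]) t
    (toGenTr U hU (fun U => Pool.Agent.H77.BCP.pf_RKB U (Pool.Agent.H77.BCP.pf_RKA U)) ht)
  rw [← rankS_eq] at h
  exact h

end Pool.Agent.Results.MP_9d0bb7_lc.ProductsADE
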