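import Pool.Agent.H78.S.Fin4

/-!
# The Borovik-Cherlin conjecture for groups with solvable generic stabilizers

Let `(G, S)` be a faithful transitive permutation group of finite Morley rank, `G` connected,
`n = rk S ≥ 1`, and let the points `x_0, …, x_(n+1)` of `S` have a generic orbit in `S ^ (n+2)`. If

1. the pointwise stabilizer of `n` of these points is virtually solvable, or
2. the pointwise stabilizer of `n + 1` of these points is virtually abelian,

then `(G, S)` is isomorphic to `PSL_(n+1)(F)` with its natural action on the projective space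
`P^n(F)`, for an algebraically closed field `F`.

Groups of finite Morley rank are given by the axioms of Borovik and Poizat for the definable sets
and their ranks (`RankedUniverse`); quotients by definable equivalence relations exist in larger
universes (`ClosedUnderQuotients`).
-/

set_option autoImplicit false

open Set Matrix

namespace Pool.Agent.Results.MP_9d0bb7_lc.SolvableStabilizers

/-- A ranked universe on `M` (axioms of Borovik and Poizat): the definable subsets of `M ^ ι`, `ι` a
finite set, and their ranks. The rank of the empty set plays no role. -/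
structure RankedUniverse (M : Type) where
  /-- `Definable ι A`: the subset `A` of `M ^ ι` is definable -/
  Definable : (ι : Type) → [Finite ι] → Set (ι → M) → Prop
  /-- the rank of a subset of `M ^ ι` -/
  rank : (ι : Type) → [Finite ι] → Set (ι → M) → ℕ
  full : ∀ (ι : Type) [Finite ι], Definable ι univ
  inter : ∀ (ι : Type) [Finite ι] (A B : Set (ι → M)), Definable ι A → Definable ι B →
    Definable ι (A ∩ B)
  compl : ∀ (ι : Type) [Finite ι] (A : Set (ι → M)), Definable ι A → Definable ι Aᶜ
  point : ∀ (ι : Type) [Finite ι] (i : ι) (c : M), Definable ι {x | x i = c}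
  diag : ∀ (ι : Type) [Finite ι] (i j : ι), Definable ι {x | x i = x j}
  pull : ∀ (ι κ : Type) [Finite ι] [Finite κ] (f : ι → κ) (A : Set (ι → M)), Definable ι A →
    Definable κ {y | y ∘ f ∈ A}
  image : ∀ (ι κ : Type) [Finite ι] [Finite κ] (f : ι → κ) (A : Set (κ → M)), Definable κ A →
    Definable ι ((fun y => y ∘ f) '' A)
  /-- the rank of `A` is at least `n + 1` if and only if `A` contains infinitely many pairwise
  disjoint definable sets of rank at least `n` -/
  monotone : ∀ (ι : Type) [Finite ι] (A : Set (ι → M)) (n : ℕ), Definable ι A → A.Nonempty →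
    (n + 1 ≤ rank ι A ↔ ∃ B : ℕ → Set (ι → M),
      (∀ i, Definable ι (B i) ∧ (B i).Nonempty ∧ B i ⊆ A ∧ n ≤ rank ι (B i)) ∧
        ∀ i j, i ≠ j → Disjoint (B i) (B j))
  /-- for a definable function `f` from `A` to `B`, the set of the elements of `B` whose fibre has
  rank `n` is definable -/
  definable : ∀ (ι κ : Type) [Finite ι] [Finite κ] (A : Set (ι → M)) (B : Set (κ → M))
    (f : (ι → M) → (κ → M)) (n : ℕ), Definable ι A → Definable κ B → MapsTo f A B →
    Definable (ι ⊕ κ) {z | z ∘ Sum.inl ∈ A ∧ z ∘ Sum.inr = f (z ∘ Sum.inl)} →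
    Definable κ {b | b ∈ B ∧ {a | a ∈ A ∧ f a = b}.Nonempty ∧ rank ι {a | a ∈ A ∧ f a = b} = n}
  /-- if all fibres of a definable function from `A` onto `B` have rank `n`, then the rank of `A` is
  the rank of `B` plus `n` -/
  additive : ∀ (ι κ : Type) [Finite ι] [Finite κ] (A : Set (ι → M)) (B : Set (κ → M))
    (f : (ι → M) → (κ → M)) (n : ℕ), Definable ι A → Definable κ B → A.Nonempty → f '' A = B →
    Definable (ι ⊕ κ) {z | z ∘ Sum.inl ∈ A ∧ z ∘ Sum.inr = f (z ∘ Sum.inl)} →
    (∀ b ∈ B, rank ι {a | a ∈ A ∧ f a = b} = n) → rank ι A = rank κ B + n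

/-- The ranked universe `U'` on `M'` extends the ranked universe `U` on `M`, by means of the
injection `e`: the same subsets of `M ^ ι` are definable, with the same ranks. -/
structure Extends {M M' : Type} (U : RankedUniverse M) (U' : RankedUniverse M') (e : M → M') :
    Prop where
  inj : Function.Injective e
  definable_iff : ∀ (ι : Type) [Finite ι] (A : Set (ι → M)),
    U'.Definable ι ((fun x => e ∘ x) '' A) ↔ U.Definable ι A
  rank_eq : ∀ (ι : Type) [Finite ι] (A : Set (ι → M)), U.Definable ι A → A.Nonempty →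
    U'.rank ι ((fun x => e ∘ x) '' A) = U.rank ι A

/-- The class `C` of ranked universes is closed under quotients: for every universe `U` in `C` and
every definable equivalence relation `E` on `M ^ ι` there is an extension of `U` in `C` which
contains the quotient, that is a definable function `q` on `M ^ ι` whose fibres are the classes. -/
def ClosedUnderQuotients (C : ∀ M : Type, RankedUniverse M → Prop) : Prop :=
  ∀ (M : Type) (U : RankedUniverse M), C M U → ∀ (ι : Type) [Finite ι] (E : Setoid (ι → M)),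
    U.Definable (ι ⊕ ι) {z | E.r (z ∘ Sum.inl) (z ∘ Sum.inr)} →
    ∃ (M' : Type) (U' : RankedUniverse M') (e : M → M') (q : (ι → M) → M'), C M' U' ∧
      Extends U U' e ∧ (∀ x y, q x = q y ↔ E.r x y) ∧
      U'.Definable (ι ⊕ Unit) {z | ∃ x : ι → M, z ∘ Sum.inl = e ∘ x ∧ z (Sum.inr ()) = q x}

section

variable {G S : Type} [Group G] [MulAction G S]

/-- `(G, S)` is definable in the ranked universe: the group `G`, its multiplication and its action on
the set `S`. The universe may contain more definable sets. -/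
structure IsPermutationGroup (U : RankedUniverse (G ⊕ S)) : Prop where
  group : U.Definable Unit {x | ∃ g : G, x () = Sum.inl g}
  mul : U.Definable (Fin 3)
    {x | ∃ g h : G, x 0 = Sum.inl g ∧ x 1 = Sum.inl h ∧ x 2 = Sum.inl (g * h)}
  action : U.Definable (Fin 3)
    {x | ∃ (g : G) (s : S), x 0 = Sum.inl g ∧ x 1 = Sum.inr s ∧ x 2 = Sum.inr (g • s)}

/-- definable subgroups of `G` -/
def DefinableSubgroup (U : RankedUniverse (G ⊕ S)) (H : Subgroup G) : Prop :=
  U.Definable Unit {x | ∃ g ∈ H, x () = Sum.inl g}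

/-- `G` is connected: it has no proper definable subgroup of finite index. -/
def IsConnected (U : RankedUniverse (G ⊕ S)) : Prop :=
  ∀ H : Subgroup G, DefinableSubgroup U H → H.index ≠ 0 → H = ⊤

/-- the rank of `S` -/
def rankS (U : RankedUniverse (G ⊕ S)) : ℕ := U.rank Unit {x | ∃ s : S, x () = Sum.inr s}

/-- the rank of a set of `μ`-tuples of elements of `S` -/
def rankT (U : RankedUniverse (G ⊕ S)) {μ : ℕ} (T : Set (Fin μ → S)) : ℕ :=
  U.rank (Fin μ) ((fun t i => Sum.inr (t i)) '' T)

/-- The orbit of the tuple `x` is generic: its complement in `S ^ μ` is empty or of smaller rank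
than `S ^ μ`. -/
def HasGenericOrbit (U : RankedUniverse (G ⊕ S)) {μ : ℕ} (x : Fin μ → S) : Prop :=
  (MulAction.orbit G x)ᶜ = ∅ ∨ rankT U (MulAction.orbit G x)ᶜ < rankT U (univ : Set (Fin μ → S))

/-- A definable subgroup of finite index in `H` is solvable. -/
def VirtuallySolvable (U : RankedUniverse (G ⊕ S)) (H : Subgroup G) : Prop :=
  ∃ L : Subgroup G, L ≤ H ∧ L.relIndex H ≠ 0 ∧ DefinableSubgroup U L ∧ Group.IsSolvable L

/-- A definable subgroup of finite index in `H` is abelian. -/
def VirtuallyAbelian (U : RankedUniverse (G ⊕ S)) (H : Subgroup G) : Prop :=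
  ∃ L : Subgroup G, L ≤ H ∧ L.relIndex H ≠ 0 ∧ DefinableSubgroup U L ∧
    ∀ a ∈ L, ∀ b ∈ L, a * b = b * a

/-- `(G, S)` is isomorphic to `PSL_(n+1)(F)` with its natural action on `P^n(F)`, the class of the
matrix `A` sends the line of `v` to the line of `A v` -/
def IsNaturalAction (G S F : Type) [Group G] [MulAction G S] [Field F] (n : ℕ) : Prop :=
  ∃ (φ : G ≃* ProjectiveSpecialLinearGroup (Fin (n + 1)) F)
    (b : S ≃ Projectivization F (Fin (n + 1) → F)),
    ∀ (g : G) (A : SpecialLinearGroup (Fin (n + 1)) F), φ g = QuotientGroup.mk A →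
      ∀ (x : S) (v : Fin (n + 1) → F) (hv : v ≠ 0) (hw : A.val *ᵥ v ≠ 0),
        b x = Projectivization.mk F v hv → b (g • x) = Projectivization.mk F (A.val *ᵥ v) hw

end

/-! ### Relation to the definitions in the library -/

section

open Pool.Agent.H77.BC Pool.Agent.H78.S

/-- the same structure -/
def toRU {M : Type} (U : RankedUniverse M) : RU M where
  Def := U.Definable
  rk := U.rank
  full := U.full
  inter := U.inter
  compl := U.compl
  point := U.point
  diag := U.diag
  pull := U.pull
  image := U.image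
  monotone := U.monotone
  definable := U.definable
  additive := U.additive

/-- the same structure -/
def ofRU {M : Type} (U : RU M) : RankedUniverse M where
  Definable := U.Def
  rank := U.rk
  full := U.full
  inter := U.inter
  compl := U.compl
  point := U.point
  diag := U.diag
  pull := U.pull
  image := U.image
  monotone := U.monotone
  definable := U.definable
  additive := U.additive

theorem toQClosed {C : ∀ M : Type, RankedUniverse M → Prop} (hC : ClosedUnderQuotients C) :
    Pool.Agent.H77.KG.QClosed fun M U => C M (ofRU U) := by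
  intro M U hU ι _ E hE
  obtain ⟨M', U', e, q, h1, h2, h3, h4⟩ := hC M (ofRU U) hU ι E hE
  exact ⟨M', toRU U', e, q, h1, ⟨h2.inj, fun ι _ A => h2.definable_iff ι A,
    fun ι _ A => h2.rank_eq ι A⟩, h3, h4⟩

variable {G S : Type} [Group G] [MulAction G S] (U : RankedUniverse (G ⊕ S))

theorem toPG (h : IsPermutationGroup U) : PG G S (toRU U) := ⟨h.group, h.mul, h.action⟩

theorem rankS_eq : rankS U = (toRU U).R (univ : Set S) := by
  unfold rankS RU.R
  have e : {x : Unit → G ⊕ S | ∃ s : S, x () = Sum.inr s} =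
      Cod.c (M := G ⊕ S) '' (univ : Set S) := by
    ext x
    constructor
    · rintro ⟨g, hg⟩
      refine ⟨g, mem_univ _, ?_⟩
      funext i
      exact hg.symm
    · rintro ⟨g, -, rfl⟩
      exact ⟨g, rfl⟩
  rw [e]
  rfl

theorem defSub_iff (H : Subgroup G) : DefinableSubgroup U H ↔ (toRU U).D (H : Set G) := by
  unfold DefinableSubgroup RU.D
  have e : {x : Unit → G ⊕ S | ∃ g ∈ H, x () = Sum.inl g} =
      Cod.c (M := G ⊕ S) '' (H : Set G) := by
    ext x
    constructor
    · rintro ⟨g, hg, h⟩
      refine ⟨g, hg, ?_⟩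
      funext i
      exact h.symm
    · rintro ⟨g, hg, rfl⟩
      exact ⟨g, hg, rfl⟩
  rw [e]
  exact Iff.rfl

/-- tuples with the obvious code -/
def Raw (M : Type) (μ : ℕ) : Type := Fin μ → M

instance codRaw {M : Type} {μ : ℕ} : Cod M (Raw M μ) :=
  ⟨Fin μ, inferInstance, fun x => x, fun _ _ h => h⟩

theorem rankT_eq (h : IsPermutationGroup U) {μ : ℕ}
    (T : Set (Fin μ → S)) (hT : (toRU U).D T) (hne : T.Nonempty) :
    rankT U T = (toRU U).R T := by
  have hRF : Ful (toRU U) (Raw (G ⊕ S) μ) := ⟨by
    unfold RU.D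
    have e : Cod.c (M := G ⊕ S) '' (univ : Set (Raw (G ⊕ S) μ)) = univ := by
      ext x
      exact ⟨fun _ => mem_univ _, fun _ => ⟨x, mem_univ _, rfl⟩⟩
    rw [e]
    exact U.full _⟩
  have _ := (toPG U h).fulS
  -- the inclusion of the tuples of S in the tuples of G ⊕ S
  let v : (Fin μ → S) → Raw (G ⊕ S) μ := fun t i => Sum.inr (t i)
  have hv : DFn (toRU U) v := DFn_of_code (fun i => (i, ())) fun b => rfl
  have h1 := (l_RKB (toRU U)).inj hT hv hne (fun a _ b _ hab => funext fun i =>
    Sum.inr_injective (congrFun hab i))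
  rw [← h1]
  unfold rankT RU.R
  have e : Cod.c (M := G ⊕ S) '' (v '' T) = (fun t (i : Fin μ) => (Sum.inr (t i) : G ⊕ S)) '' T := by
    rw [image_image]
    rfl
  rw [e]
  rfl

theorem toBig (h : IsPermutationGroup U) {μ : ℕ} (x : Fin μ → S) (hx : HasGenericOrbit U x) :
    Big (toRU U) (univ : Set (Fin μ → S)) {y | ∃ g : G, ∀ i, y i = g • x i} := by
  have _ := (toPG U h).ful
  have _ := (toPG U h).fulS
  have e : {y : Fin μ → S | ¬ ∃ g : G, ∀ i, y i = g • x i} = (MulAction.orbit G x)ᶜ := by
    ext y
    refine not_congr ?_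
    constructor
    · rintro ⟨g, hg⟩
      exact ⟨g, funext fun i => (hg i).symm⟩
    · rintro ⟨g, hg⟩
      exact ⟨g, fun i => (congrFun hg i).symm⟩
  have hD0 : (toRU U).D {y : Fin μ → S | ∃ g : G, ∀ i, y i = g • x i} := by
    refine D_exists (D_forall_fin fun i => D_eqf (DFn_comp (DFn_apply i) DFn_fst) ?_)
    exact DFn_comp (g := fun p : G × S => p.1 • p.2) (toPG U h).dact
      (DFn_pair DFn_snd (DFn_const (x i)))
  have hD : (toRU U).D {y : Fin μ → S | ¬ ∃ g : G, ∀ i, y i = g • x i} := D_not hD0
  have hne0 : {y : Fin μ → S | ∃ g : G, ∀ i, y i = g • x i}.Nonempty :=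
    ⟨x, 1, fun i => (one_smul G (x i)).symm⟩
  refine ⟨_, hD0, hne0, subset_univ _, subset_rfl, ?_⟩
  have hun : {y : Fin μ → S | ∃ g : G, ∀ i, y i = g • x i} ∪
      {y : Fin μ → S | ¬ ∃ g : G, ∀ i, y i = g • x i} = univ := by
    ext y
    exact ⟨fun _ => mem_univ _, fun _ => em _⟩
  by_cases hne : {y : Fin μ → S | ¬ ∃ g : G, ∀ i, y i = g • x i}.Nonempty
  · have h1 := (l_RKA (toRU U)).union hD0 hD hne0 hne
    rw [hun] at h1
    have h2 : (toRU U).R {y : Fin μ → S | ¬ ∃ g : G, ∀ i, y i = g • x i} <
        (toRU U).R (univ : Set (Fin μ → S)) := by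
      rcases hx with hx | hx
      · rw [e, hx] at hne
        exact (not_nonempty_empty hne).elim
      · rw [e] at hne hD ⊢
        rwa [rankT_eq U h _ hD hne, rankT_eq U h _ Ful.full ⟨x, mem_univ _⟩] at hx
    rcases le_total ((toRU U).R {y : Fin μ → S | ∃ g : G, ∀ i, y i = g • x i})
      ((toRU U).R {y : Fin μ → S | ¬ ∃ g : G, ∀ i, y i = g • x i}) with h3 | h3
    · rw [max_eq_right h3] at h1
      omega
    · rw [max_eq_left h3] at h1
      omega
  · rw [not_nonempty_iff_eq_empty] at hne
    rw [hne, union_empty] at hun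
    rw [hun]

theorem stab_eq {n : ℕ} (x : Fin (n + 2) → S) (A : Set (Fin (n + 2))) :
    fixingSubgroup G (x '' A) = St G x A := by
  ext g
  rw [mem_fixingSubgroup_iff]
  constructor
  · intro h i hi
    exact h _ ⟨i, hi, rfl⟩
  · rintro h _ ⟨i, hi, rfl⟩
    exact h i hi

end

/-- The Borovik-Cherlin conjecture for groups with solvable generic stabilizers. -/
theorem result (C : ∀ M : Type, RankedUniverse M → Prop) (hC : ClosedUnderQuotients C)
    {G S : Type} [Group G] [MulAction G S] [FaithfulSMul G S] [MulAction.IsPretransitive G S]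
    (U : RankedUniverse (G ⊕ S)) (hCU : C (G ⊕ S) U) (hU : IsPermutationGroup U)
    (hconn : IsConnected U) (n : ℕ) (hn : 1 ≤ n) (hS : rankS U = n) (x : Fin (n + 2) → S)
    (hx : HasGenericOrbit U x)
    (h : (∃ i j : Fin (n + 2), i ≠ j ∧ VirtuallySolvable U (fixingSubgroup G (x '' {i, j}ᶜ))) ∨
      ∃ i : Fin (n + 2), VirtuallyAbelian U (fixingSubgroup G (x '' {i}ᶜ))) :
    ∃ (F : Type) (_ : Field F), IsAlgClosed F ∧ IsNaturalAction G S F n := by
  have hP := toPG U hU
  have _ := hP.dg
  have _ := hP.fulS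
  have hF : Pool.Agent.H78.S.Frm (toRU U) G x := by
    refine ⟨hP.dg, hP.fulS, hP.dact, ⟨?_, ?_⟩, ‹_›, ‹_›, hn, ?_, toBig U hU x hx⟩
    · rw [Subgroup.coe_top]
      exact Pool.Agent.H77.BC.Ful.full
    · intro L _ hL hr
      refine hconn L ((defSub_iff U L).2 hL) ?_
      have h1 := (Pool.Agent.H78.S.l_GRA (toRU U) (⊤ : Subgroup G) L (by
        rw [Subgroup.coe_top]
        exact Pool.Agent.H77.BC.Ful.full) hL le_top).2 hr
      rwa [Subgroup.relIndex_top_right] at h1
    · rw [← rankS_eq]
      exact hS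
  refine Pool.Agent.H78.S.final (fun M V => C M (ofRU V)) (toQClosed hC) (toRU U) hCU hP x hF ?_
  rcases h with ⟨i, j, hij, L, h1, h2, h3, h4⟩ | ⟨i, L, h1, h2, h3, h4⟩
  · left
    rw [stab_eq] at h1 h2
    exact ⟨i, j, hij, L, (defSub_iff U L).1 h3, h1, h2, h4⟩
  · right
    rw [stab_eq] at h1 h2
    exact ⟨i, L, (defSub_iff U L).1 h3, h1, h2, h4⟩

end Pool.Agent.Results.MP_9d0bb7_lc.SolvableStabilizers
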