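import Pool.Agent.H77.BCP.Asm

/-!
# The Borovik-Cherlin conjecture for the groups `PSL_m(F)`

Let `(G, S)` be a permutation group of finite Morley rank, faithful and transitive, where `G` is
isomorphic to `PSL_m(F)`, `m ≥ 2`, as an abstract group, `F` any algebraically closed field. No
hypothesis on the structure: `F` may carry additional structure, and its rank may be larger than
one. Then

1. `rk G ≤ (m + 1) rk S`;
2. if `n = rk S ≥ 1` and `n (n + 2) ≤ rk G`, or if `n ≥ 1` and the action is generically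
   `(n + 2)`-transitive, then `m = n + 1` and `(G, S)` is isomorphic to `PSL_(n+1)(F)` with its
   natural action on the projective space `P^n(F)`.

Groups of finite Morley rank are given by the axioms of Borovik and Poizat for the definable sets
and their ranks (`RankedUniverse`).
-/

set_option autoImplicit false

open Set Matrix

namespace Pool.Agent.Results.MP_9d0bb7_lc.TypeA

/-- A ranked universe on `M` (axioms of Borovik and Poizat): the definable subsets of `M ^ ι`, `ι` a
finite set, and their ranks. The rank of the empty set plays no role. -/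
structure RankedUniverse (M : Type) where
  /-- `Definable ι A`: the subset `A` of `M ^ ι` is definable -/
  Definable : (ι : Type) → [Finite ι] → Set (ι → M) → Prop
  /-- the rank of a subset of `M ^ ι` -/
  rank : (ι : Type) → [Finite ι] → Set (ι → M) → ℕ
  full : ∀ (ι : Type) [Finite ι], Definable ι univ
  inter : ∀ (ι : Type) [Finite ι] (A B : Set (ι → M)), Definable ι A → Definable ι B →
    Definable ι (A ∩ B)
  compl : ∀ (ι : Type) [Finite ι] (A : Set (ι → M)), Definable ι A → Definable ι Aᶜ
  point : ∀ (ι : Type) [Finite ι] (i : ι) (c : M), Definable ι {x | x i = c}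
  diag : ∀ (ι : Type) [Finite ι] (i j : ι), Definable ι {x | x i = x j}
  pull : ∀ (ι κ : Type) [Finite ι] [Finite κ] (f : ι → κ) (A : Set (ι → M)), Definable ι A →
    Definable κ {y | y ∘ f ∈ A}
  image : ∀ (ι κ : Type) [Finite ι] [Finite κ] (f : ι → κ) (A : Set (κ → M)), Definable κ A →
    Definable ι ((fun y => y ∘ f) '' A)
  /-- the rank of `A` is at least `n + 1` if and only if `A` contains infinitely many pairwise
  disjoint definable sets of rank at least `n` -/
  monotone : ∀ (ι : Type) [Finite ι] (A : Set (ι → M)) (n : ℕ), Definable ι A → A.Nonempty →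
    (n + 1 ≤ rank ι A ↔ ∃ B : ℕ → Set (ι → M),
      (∀ i, Definable ι (B i) ∧ (B i).Nonempty ∧ B i ⊆ A ∧ n ≤ rank ι (B i)) ∧
        ∀ i j, i ≠ j → Disjoint (B i) (B j))
  /-- for a definable function `f` from `A` to `B`, the set of the elements of `B` whose fibre has
  rank `n` is definable -/
  definable : ∀ (ι κ : Type) [Finite ι] [Finite κ] (A : Set (ι → M)) (B : Set (κ → M))
    (f : (ι → M) → (κ → M)) (n : ℕ), Definable ι A → Definable κ B → MapsTo f A B →
    Definable (ι ⊕ κ) {z | z ∘ Sum.inl ∈ A ∧ z ∘ Sum.inr = f (z ∘ Sum.inl)} →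
    Definable κ {b | b ∈ B ∧ {a | a ∈ A ∧ f a = b}.Nonempty ∧ rank ι {a | a ∈ A ∧ f a = b} = n}
  /-- if all fibres of a definable function from `A` onto `B` have rank `n`, then the rank of `A` is
  the rank of `B` plus `n` -/
  additive : ∀ (ι κ : Type) [Finite ι] [Finite κ] (A : Set (ι → M)) (B : Set (κ → M))
    (f : (ι → M) → (κ → M)) (n : ℕ), Definable ι A → Definable κ B → A.Nonempty → f '' A = B →
    Definable (ι ⊕ κ) {z | z ∘ Sum.inl ∈ A ∧ z ∘ Sum.inr = f (z ∘ Sum.inl)} →
    (∀ b ∈ B, rank ι {a | a ∈ A ∧ f a = b} = n) → rank ι A = rank κ B + n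

section

variable {G S : Type} [Group G] [MulAction G S]

/-- `(G, S)` is definable in the ranked universe: the group `G`, its multiplication and its action on
the set `S`. The universe may contain more definable sets. -/
structure IsPermutationGroup (U : RankedUniverse (G ⊕ S)) : Prop where
  group : U.Definable Unit {x | ∃ g : G, x () = Sum.inl g}
  mul : U.Definable (Fin 3)
    {x | ∃ g h : G, x 0 = Sum.inl g ∧ x 1 = Sum.inl h ∧ x 2 = Sum.inl (g * h)}
  action : U.Definable (Fin 3)
    {x | ∃ (g : G) (s : S), x 0 = Sum.inl g ∧ x 1 = Sum.inr s ∧ x 2 = Sum.inr (g • s)}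

/-- the rank of `G` -/
def rankG (U : RankedUniverse (G ⊕ S)) : ℕ := U.rank Unit {x | ∃ g : G, x () = Sum.inl g}

/-- the rank of `S` -/
def rankS (U : RankedUniverse (G ⊕ S)) : ℕ := U.rank Unit {x | ∃ s : S, x () = Sum.inr s}

/-- the rank of a set of `μ`-tuples of elements of `S` -/
def rankT (U : RankedUniverse (G ⊕ S)) {μ : ℕ} (T : Set (Fin μ → S)) : ℕ :=
  U.rank (Fin μ) ((fun t i => Sum.inr (t i)) '' T)

/-- generic `μ`-transitivity: the complement of some orbit of `G` on `S ^ μ` is empty or of smaller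
rank than `S ^ μ` -/
def GenericallyTransitive (U : RankedUniverse (G ⊕ S)) (μ : ℕ) : Prop :=
  ∃ s : Fin μ → S, (MulAction.orbit G s)ᶜ = ∅ ∨
    rankT U (MulAction.orbit G s)ᶜ < rankT U (univ : Set (Fin μ → S))

/-- `(G, S)` is isomorphic to `PSL_(n+1)(F)` with its natural action on `P^n(F)`, the class of the
matrix `A` sends the line of `v` to the line of `A v` -/
def IsNaturalAction (G S F : Type) [Group G] [MulAction G S] [Field F] (n : ℕ) : Prop :=
  ∃ (φ : G ≃* ProjectiveSpecialLinearGroup (Fin (n + 1)) F)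
    (b : S ≃ Projectivization F (Fin (n + 1) → F)),
    ∀ (g : G) (A : SpecialLinearGroup (Fin (n + 1)) F), φ g = QuotientGroup.mk A →
      ∀ (x : S) (v : Fin (n + 1) → F) (hv : v ≠ 0) (hw : A.val *ᵥ v ≠ 0),
        b x = Projectivization.mk F v hv → b (g • x) = Projectivization.mk F (A.val *ᵥ v) hw

end

/-! ### Relation to the definitions in the library -/

section

open Pool.Agent.H77.BC

/-- the same structure -/
def toRU {M : Type} (U : RankedUniverse M) : RU M where
  Def := U.Definable
  rk := U.rank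
  full := U.full
  inter := U.inter
  compl := U.compl
  point := U.point
  diag := U.diag
  pull := U.pull
  image := U.image
  monotone := U.monotone
  definable := U.definable
  additive := U.additive

variable {G S : Type} [Group G] [MulAction G S] (U : RankedUniverse (G ⊕ S))

theorem toPG (h : IsPermutationGroup U) : PG G S (toRU U) := ⟨h.group, h.mul, h.action⟩

theorem rankG_eq : rankG U = (toRU U).R (univ : Set G) := by
  unfold rankG RU.R
  have e : {x : Unit → G ⊕ S | ∃ g : G, x () = Sum.inl g} =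
      Cod.c (M := G ⊕ S) '' (univ : Set G) := by
    ext x
    constructor
    · rintro ⟨g, hg⟩
      refine ⟨g, mem_univ _, ?_⟩
      funext i
      exact hg.symm
    · rintro ⟨g, -, rfl⟩
      exact ⟨g, rfl⟩
  rw [e]
  rfl

theorem rankS_eq : rankS U = (toRU U).R (univ : Set S) := by
  unfold rankS RU.R
  have e : {x : Unit → G ⊕ S | ∃ s : S, x () = Sum.inr s} =
      Cod.c (M := G ⊕ S) '' (univ : Set S) := by
    ext x
    constructor
    · rintro ⟨g, hg⟩
      refine ⟨g, mem_univ _, ?_⟩
      funext i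
      exact hg.symm
    · rintro ⟨g, -, rfl⟩
      exact ⟨g, rfl⟩
  rw [e]
  rfl

/-- tuples with the obvious code -/
def Raw (M : Type) (μ : ℕ) : Type := Fin μ → M

instance codRaw {M : Type} {μ : ℕ} : Cod M (Raw M μ) :=
  ⟨Fin μ, inferInstance, fun x => x, fun _ _ h => h⟩

theorem rankT_eq (h : IsPermutationGroup U) (hB : ∀ {M : Type} (U : RU M), RKB U) {μ : ℕ}
    (T : Set (Fin μ → S)) (hT : (toRU U).D T) (hne : T.Nonempty) :
    rankT U T = (toRU U).R T := by
  have hRF : Ful (toRU U) (Raw (G ⊕ S) μ) := ⟨by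
    unfold RU.D
    have e : Cod.c (M := G ⊕ S) '' (univ : Set (Raw (G ⊕ S) μ)) = univ := by
      ext x
      exact ⟨fun _ => mem_univ _, fun _ => ⟨x, mem_univ _, rfl⟩⟩
    rw [e]
    exact U.full _⟩
  have _ := (toPG U h).fulS
  -- the inclusion of the tuples of S in the tuples of G ⊕ S
  let v : (Fin μ → S) → Raw (G ⊕ S) μ := fun t i => Sum.inr (t i)
  have hv : DFn (toRU U) v := DFn_of_code (fun i => (i, ())) fun b => rfl
  have h1 := (hB (toRU U)).inj hT hv hne (fun a _ b _ hab => funext fun i =>
    Sum.inr_injective (congrFun hab i))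
  rw [← h1]
  unfold rankT RU.R
  have e : Cod.c (M := G ⊕ S) '' (v '' T) = (fun t (i : Fin μ) => (Sum.inr (t i) : G ⊕ S)) '' T := by
    rw [image_image]
    rfl
  rw [e]
  rfl

theorem toGenTr (h : IsPermutationGroup U) (hB : ∀ {M : Type} (U : RU M), RKB U) {μ : ℕ}
    (hg : GenericallyTransitive U μ) : GenTr (toRU U) μ := by
  obtain ⟨s, hs⟩ := hg
  refine ⟨s, fun hne => ?_⟩
  have _ := (toPG U h).ful
  have _ := (toPG U h).fulS
  have e : {x : Fin μ → S | ¬ ∃ g : G, ∀ i, x i = g • s i} = (MulAction.orbit G s)ᶜ := by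
    ext x
    refine not_congr ?_
    constructor
    · rintro ⟨g, hg⟩
      exact ⟨g, funext fun i => (hg i).symm⟩
    · rintro ⟨g, hg⟩
      exact ⟨g, fun i => (congrFun hg i).symm⟩
  have hD : (toRU U).D {x : Fin μ → S | ¬ ∃ g : G, ∀ i, x i = g • s i} := by
    refine D_not (D_exists (D_forall_fin fun i => D_eqf (DFn_comp (DFn_apply i) DFn_fst) ?_))
    exact DFn_comp (g := fun p : G × S => p.1 • p.2) (toPG U h).dact
      (DFn_pair DFn_snd (DFn_const (s i)))
  rw [e] at hne hD ⊢
  rcases hs with hs | hs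
  · rw [hs] at hne
    exact (not_nonempty_empty hne).elim
  · rwa [rankT_eq U h hB _ hD hne, rankT_eq U h hB _ Ful.full ⟨s, mem_univ _⟩] at hs

end

/-- The Borovik-Cherlin conjecture for the groups `PSL_m(F)`. -/
theorem result {G S : Type} [Group G] [MulAction G S] [FaithfulSMul G S]
    [MulAction.IsPretransitive G S] (U : RankedUniverse (G ⊕ S)) (hU : IsPermutationGroup U)
    {F : Type} [Field F] [IsAlgClosed F] (m : ℕ) (hm : 2 ≤ m)
    (hG : Nonempty (G ≃* ProjectiveSpecialLinearGroup (Fin m) F)) :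
    rankG U ≤ (m + 1) * rankS U ∧
    (1 ≤ rankS U →
      (rankS U * (rankS U + 2) ≤ rankG U ∨ GenericallyTransitive U (rankS U + 2)) →
      m = rankS U + 1 ∧ IsNaturalAction G S F (rankS U)) := by
  have h := Pool.Agent.H77.BCP.fnl (toRU U) (toPG U hU) ‹_› ‹_› m hm hG
  rw [← rankG_eq, ← rankS_eq] at h
  refine ⟨h.1, fun hn hc => h.2 hn ?_⟩
  rcases hc with hc | hc
  · exact Or.inl hc
  · exact Or.inr (toGenTr U hU (fun U => Pool.Agent.H77.BCP.pf_RKB U (Pool.Agent.H77.BCP.pf_RKA U))
      hc)

end Pool.Agent.Results.MP_9d0bb7_lc.TypeA
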