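import Pool.Agent.H77.BDS.Asm

/-!
# The Borovik-Cherlin conjecture for the simple algebraic groups of types D and E

Let `(G, S)` be a permutation group of finite Morley rank, faithful and transitive, where `G` is
isomorphic, as an abstract group, to a simple algebraic group of adjoint type `A_l`, `D_l`, `E_6`,
`E_7` or `E_8` (`l ≥ 2`) over any algebraically closed field `F`. No hypothesis on the structure:
`F` may carry additional structure, and its rank may be larger than one. Let `h` be the Coxeter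
number (so there are `l h` roots) and `n = rk S`. Then

1. `h - 1 ≤ n` and `(h - 1) rk G ≤ l (h + 1) n`;
2. in the types `D_l`, `E_6`, `E_7`, `E_8` we have `rk G < n (n + 2)` and the action is not
   generically `(n + 2)`-transitive.

So the conjecture (generically `(n + 2)`-transitive actions on sets of rank `n` are the actions of
`PGL_(n+1)(F)` on `P^n(F)`) holds for these groups.

Groups of finite Morley rank are given by the axioms of Borovik and Poizat for the definable sets
and their ranks (`RankedUniverse`); the algebraic groups are given as Chevalley groups: the group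
`ChevalleyGroup C F` is generated by the root elements `X_β(t)` acting on the Lie algebra.
-/

set_option autoImplicit false

open Set Matrix

namespace Pool.Agent.Results.MP_9d0bb7_lc.TypesDE

/-! ### Chevalley groups with simply laced diagrams -/

section

variable {l : ℕ}

/-- the bilinear form with matrix `C` on `ℤ^l` -/
def form (C : Matrix (Fin l) (Fin l) ℤ) (v w : Fin l → ℤ) : ℤ := v ⬝ᵥ (C *ᵥ w)

/-- `C` is the Cartan matrix of a connected simply laced Dynkin diagram (`A_l`, `D_l`, `E_6`, `E_7`,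
`E_8`): symmetric, with diagonal entries `2`, other entries `0` or `-1`, positive definite and
connected -/
structure IsCartan (C : Matrix (Fin l) (Fin l) ℤ) : Prop where
  symm : ∀ i j, C i j = C j i
  diag : ∀ i, C i i = 2
  off : ∀ i j, i ≠ j → C i j = 0 ∨ C i j = -1
  pos : ∀ v : Fin l → ℤ, v ≠ 0 → 0 < form C v v
  conn : ∀ s : Set (Fin l), s.Nonempty → sᶜ.Nonempty → ∃ i ∈ s, ∃ j ∈ sᶜ, C i j ≠ 0

/-- some vertex of the diagram has three neighbours: the types `D_l` (`l ≥ 4`), `E_6`, `E_7`,
`E_8` -/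
def HasBranch (C : Matrix (Fin l) (Fin l) ℤ) : Prop :=
  ∃ b i j m : Fin l, i ≠ j ∧ i ≠ m ∧ j ≠ m ∧ C b i = -1 ∧ C b j = -1 ∧ C b m = -1

/-- the roots: the vectors `β` of the root lattice `ℤ^l` with `(β, β) = 2`, in the coordinates
given by the simple roots -/
abbrev Root (C : Matrix (Fin l) (Fin l) ℤ) : Type := {β : Fin l → ℤ // form C β β = 2}

/-- the matrix with `ε(v, w) = (-1)^(v ⬝ lower C w)` -/
def lower (C : Matrix (Fin l) (Fin l) ℤ) : Matrix (Fin l) (Fin l) ℤ :=
  Matrix.of fun i j => if i = j then 1 else if j < i then C i j else 0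

/-- the signs `ε(β, γ)` of the structure constants, `[e_β, e_γ] = ε(β, γ) e_(β+γ)` -/
def sign (C : Matrix (Fin l) (Fin l) ℤ) (v w : Fin l → ℤ) : ℤ :=
  if Even (v ⬝ᵥ (lower C *ᵥ w)) then 1 else -1

/-- the Lie algebra over `F`: the basis vectors `e_γ` (`γ` a root) and the Cartan algebra `F^l`, the
element `h` of `F^l` has the coordinates `h_i = α_i(h)`, `α_1, ..., α_l` the simple roots -/
abbrev LieSpace (C : Matrix (Fin l) (Fin l) ℤ) (F : Type) : Type := (Root C → F) × (Fin l → F)

variable {C : Matrix (Fin l) (Fin l) ℤ} {F : Type} [Field F]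

/-- the coefficient of `e_w`, zero if `w` is not a root -/
def coeff (v : Root C → F) (w : Fin l → ℤ) : F := if h : form C w w = 2 then v ⟨w, h⟩ else 0

/-- the value `β(h)` -/
def value (β : Fin l → ℤ) (h : Fin l → F) : F := ∑ i, (β i : F) * h i

/-- the coroot `h_β`, `α_i(h_β) = (α_i, β)` -/
def coroot (C : Matrix (Fin l) (Fin l) ℤ) (F : Type) [Field F] (β : Fin l → ℤ) : Fin l → F :=
  fun i => (((C *ᵥ β) i : ℤ) : F)

/-- the root elements `X_β(t)`: `e_γ ↦ e_γ + t ε(β, γ) e_(β+γ)` (`γ ≠ -β`; the second term is zero if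
`β + γ` is not a root), `e_(-β) ↦ e_(-β) - t h_β + t² e_β`, `h ↦ h - t β(h) e_β` -/
def rootElement (β : Root C) (t : F) (v : LieSpace C F) : LieSpace C F :=
  (fun γ => v.1 γ + t * ((sign C β.1 (γ.1 - β.1) : F) * coeff v.1 (γ.1 - β.1)) +
      (if γ = β then t ^ 2 * coeff v.1 (-β.1) - t * value β.1 v.2 else 0),
    fun i => v.2 i - t * coeff v.1 (-β.1) * coroot C F β.1 i)

/-- the adjoint Chevalley group, generated by the root elements -/
def ChevalleyGroup (C : Matrix (Fin l) (Fin l) ℤ) (F : Type) [Field F] :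
    Subgroup (Equiv.Perm (LieSpace C F)) :=
  Subgroup.closure {g | ∃ (β : Root C) (t : F), ∀ v, g v = rootElement β t v}

end

/-! ### Groups of finite Morley rank -/

/-- A ranked universe on `M` (axioms of Borovik and Poizat): the definable subsets of `M ^ ι`, `ι` a
finite set, and their ranks. The rank of the empty set plays no role. -/
structure RankedUniverse (M : Type) where
  /-- `Definable ι A`: the subset `A` of `M ^ ι` is definable -/
  Definable : (ι : Type) → [Finite ι] → Set (ι → M) → Prop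
  /-- the rank of a subset of `M ^ ι` -/
  rank : (ι : Type) → [Finite ι] → Set (ι → M) → ℕ
  full : ∀ (ι : Type) [Finite ι], Definable ι univ
  inter : ∀ (ι : Type) [Finite ι] (A B : Set (ι → M)), Definable ι A → Definable ι B →
    Definable ι (A ∩ B)
  compl : ∀ (ι : Type) [Finite ι] (A : Set (ι → M)), Definable ι A → Definable ι Aᶜ
  point : ∀ (ι : Type) [Finite ι] (i : ι) (c : M), Definable ι {x | x i = c}
  diag : ∀ (ι : Type) [Finite ι] (i j : ι), Definable ι {x | x i = x j}
  pull : ∀ (ι κ : Type) [Finite ι] [Finite κ] (f : ι → κ) (A : Set (ι → M)), Definable ι A →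
    Definable κ {y | y ∘ f ∈ A}
  image : ∀ (ι κ : Type) [Finite ι] [Finite κ] (f : ι → κ) (A : Set (κ → M)), Definable κ A →
    Definable ι ((fun y => y ∘ f) '' A)
  /-- the rank of `A` is at least `n + 1` if and only if `A` contains infinitely many pairwise
  disjoint definable sets of rank at least `n` -/
  monotone : ∀ (ι : Type) [Finite ι] (A : Set (ι → M)) (n : ℕ), Definable ι A → A.Nonempty →
    (n + 1 ≤ rank ι A ↔ ∃ B : ℕ → Set (ι → M),
      (∀ i, Definable ι (B i) ∧ (B i).Nonempty ∧ B i ⊆ A ∧ n ≤ rank ι (B i)) ∧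
        ∀ i j, i ≠ j → Disjoint (B i) (B j))
  /-- for a definable function `f` from `A` to `B`, the set of the elements of `B` whose fibre has
  rank `n` is definable -/
  definable : ∀ (ι κ : Type) [Finite ι] [Finite κ] (A : Set (ι → M)) (B : Set (κ → M))
    (f : (ι → M) → (κ → M)) (n : ℕ), Definable ι A → Definable κ B → MapsTo f A B →
    Definable (ι ⊕ κ) {z | z ∘ Sum.inl ∈ A ∧ z ∘ Sum.inr = f (z ∘ Sum.inl)} →
    Definable κ {b | b ∈ B ∧ {a | a ∈ A ∧ f a = b}.Nonempty ∧ rank ι {a | a ∈ A ∧ f a = b} = n}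
  /-- if all fibres of a definable function from `A` onto `B` have rank `n`, then the rank of `A` is
  the rank of `B` plus `n` -/
  additive : ∀ (ι κ : Type) [Finite ι] [Finite κ] (A : Set (ι → M)) (B : Set (κ → M))
    (f : (ι → M) → (κ → M)) (n : ℕ), Definable ι A → Definable κ B → A.Nonempty → f '' A = B →
    Definable (ι ⊕ κ) {z | z ∘ Sum.inl ∈ A ∧ z ∘ Sum.inr = f (z ∘ Sum.inl)} →
    (∀ b ∈ B, rank ι {a | a ∈ A ∧ f a = b} = n) → rank ι A = rank κ B + n

section

variable {G S : Type} [Group G] [MulAction G S]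

/-- `(G, S)` is definable in the ranked universe: the group `G`, its multiplication and its action on
the set `S`. The universe may contain more definable sets. -/
structure IsPermutationGroup (U : RankedUniverse (G ⊕ S)) : Prop where
  group : U.Definable Unit {x | ∃ g : G, x () = Sum.inl g}
  mul : U.Definable (Fin 3)
    {x | ∃ g h : G, x 0 = Sum.inl g ∧ x 1 = Sum.inl h ∧ x 2 = Sum.inl (g * h)}
  action : U.Definable (Fin 3)
    {x | ∃ (g : G) (s : S), x 0 = Sum.inl g ∧ x 1 = Sum.inr s ∧ x 2 = Sum.inr (g • s)}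

/-- the rank of `G` -/
def rankG (U : RankedUniverse (G ⊕ S)) : ℕ := U.rank Unit {x | ∃ g : G, x () = Sum.inl g}

/-- the rank of `S` -/
def rankS (U : RankedUniverse (G ⊕ S)) : ℕ := U.rank Unit {x | ∃ s : S, x () = Sum.inr s}

/-- the rank of a set of `μ`-tuples of elements of `S` -/
def rankT (U : RankedUniverse (G ⊕ S)) {μ : ℕ} (T : Set (Fin μ → S)) : ℕ :=
  U.rank (Fin μ) ((fun t i => Sum.inr (t i)) '' T)

/-- generic `μ`-transitivity: the complement of some orbit of `G` on `S ^ μ` is empty or of smaller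
rank than `S ^ μ` -/
def GenericallyTransitive (U : RankedUniverse (G ⊕ S)) (μ : ℕ) : Prop :=
  ∃ s : Fin μ → S, (MulAction.orbit G s)ᶜ = ∅ ∨
    rankT U (MulAction.orbit G s)ᶜ < rankT U (univ : Set (Fin μ → S))

end

/-! ### Relation to the definitions in the library -/

section

open Pool.Agent.H77.BC

/-- the same structure -/
def toRU {M : Type} (U : RankedUniverse M) : RU M where
  Def := U.Definable
  rk := U.rank
  full := U.full
  inter := U.inter
  compl := U.compl
  point := U.point
  diag := U.diag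
  pull := U.pull
  image := U.image
  monotone := U.monotone
  definable := U.definable
  additive := U.additive

variable {G S : Type} [Group G] [MulAction G S] (U : RankedUniverse (G ⊕ S))

theorem toPG (h : IsPermutationGroup U) : PG G S (toRU U) := ⟨h.group, h.mul, h.action⟩

theorem rankG_eq : rankG U = (toRU U).R (univ : Set G) := by
  unfold rankG RU.R
  have e : {x : Unit → G ⊕ S | ∃ g : G, x () = Sum.inl g} =
      Cod.c (M := G ⊕ S) '' (univ : Set G) := by
    ext x
    constructor
    · rintro ⟨g, hg⟩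
      refine ⟨g, mem_univ _, ?_⟩
      funext i
      exact hg.symm
    · rintro ⟨g, -, rfl⟩
      exact ⟨g, rfl⟩
  rw [e]
  rfl

theorem rankS_eq : rankS U = (toRU U).R (univ : Set S) := by
  unfold rankS RU.R
  have e : {x : Unit → G ⊕ S | ∃ s : S, x () = Sum.inr s} =
      Cod.c (M := G ⊕ S) '' (univ : Set S) := by
    ext x
    constructor
    · rintro ⟨g, hg⟩
      refine ⟨g, mem_univ _, ?_⟩
      funext i
      exact hg.symm
    · rintro ⟨g, -, rfl⟩
      exact ⟨g, rfl⟩
  rw [e]
  rfl

/-- tuples with the obvious code -/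
def Raw (M : Type) (μ : ℕ) : Type := Fin μ → M

instance codRaw {M : Type} {μ : ℕ} : Cod M (Raw M μ) :=
  ⟨Fin μ, inferInstance, fun x => x, fun _ _ h => h⟩

theorem rankT_eq (h : IsPermutationGroup U) (hB : ∀ {M : Type} (U : RU M), RKB U) {μ : ℕ}
    (T : Set (Fin μ → S)) (hT : (toRU U).D T) (hne : T.Nonempty) :
    rankT U T = (toRU U).R T := by
  have hRF : Ful (toRU U) (Raw (G ⊕ S) μ) := ⟨by
    unfold RU.D
    have e : Cod.c (M := G ⊕ S) '' (univ : Set (Raw (G ⊕ S) μ)) = univ := by
      ext x
      exact ⟨fun _ => mem_univ _, fun _ => ⟨x, mem_univ _, rfl⟩⟩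
    rw [e]
    exact U.full _⟩
  have _ := (toPG U h).fulS
  -- the inclusion of the tuples of S in the tuples of G ⊕ S
  let v : (Fin μ → S) → Raw (G ⊕ S) μ := fun t i => Sum.inr (t i)
  have hv : DFn (toRU U) v := DFn_of_code (fun i => (i, ())) fun b => rfl
  have h1 := (hB (toRU U)).inj hT hv hne (fun a _ b _ hab => funext fun i =>
    Sum.inr_injective (congrFun hab i))
  rw [← h1]
  unfold rankT RU.R
  have e : Cod.c (M := G ⊕ S) '' (v '' T) = (fun t (i : Fin μ) => (Sum.inr (t i) : G ⊕ S)) '' T := by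
    rw [image_image]
    rfl
  rw [e]
  rfl

theorem toGenTr (h : IsPermutationGroup U) (hB : ∀ {M : Type} (U : RU M), RKB U) {μ : ℕ}
    (hg : GenericallyTransitive U μ) : GenTr (toRU U) μ := by
  obtain ⟨s, hs⟩ := hg
  refine ⟨s, fun hne => ?_⟩
  have _ := (toPG U h).ful
  have _ := (toPG U h).fulS
  have e : {x : Fin μ → S | ¬ ∃ g : G, ∀ i, x i = g • s i} = (MulAction.orbit G s)ᶜ := by
    ext x
    refine not_congr ?_
    constructor
    · rintro ⟨g, hg⟩
      exact ⟨g, funext fun i => (hg i).symm⟩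
    · rintro ⟨g, hg⟩
      exact ⟨g, fun i => (congrFun hg i).symm⟩
  have hD : (toRU U).D {x : Fin μ → S | ¬ ∃ g : G, ∀ i, x i = g • s i} := by
    refine D_not (D_exists (D_forall_fin fun i => D_eqf (DFn_comp (DFn_apply i) DFn_fst) ?_))
    exact DFn_comp (g := fun p : G × S => p.1 • p.2) (toPG U h).dact
      (DFn_pair DFn_snd (DFn_const (s i)))
  rw [e] at hne hD ⊢
  rcases hs with hs | hs
  · rw [hs] at hne
    exact (not_nonempty_empty hne).elim
  · rwa [rankT_eq U h hB _ hD hne, rankT_eq U h hB _ Ful.full ⟨s, mem_univ _⟩] at hs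

end

/-- The Borovik-Cherlin conjecture for the groups of types `D_l`, `E_6`, `E_7`, `E_8`, and the bounds
for all simply laced types. -/
theorem result {l : ℕ} (hl : 2 ≤ l) {C : Matrix (Fin l) (Fin l) ℤ} (hC : IsCartan C)
    {F : Type} [Field F] [IsAlgClosed F] {G S : Type} [Group G] [MulAction G S] [FaithfulSMul G S]
    [MulAction.IsPretransitive G S] (U : RankedUniverse (G ⊕ S)) (hU : IsPermutationGroup U)
    (hG : Nonempty (G ≃* ChevalleyGroup C F)) :
    ∃ h : ℕ, Nat.card (Root C) = l * h ∧ h ≤ rankS U + 1 ∧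
      (h - 1) * rankG U ≤ l * (h + 1) * rankS U ∧
      (HasBranch C →
        rankG U < rankS U * (rankS U + 2) ∧ ¬ GenericallyTransitive U (rankS U + 2)) := by
  obtain ⟨k, h1, h2, h3, h4⟩ := Pool.Agent.H77.BDS.fin (C := C)
    ⟨hC.symm, hC.diag, hC.off, hC.pos, hC.conn⟩ hl (F := F) (toRU U) (toPG U hU) ‹_› ‹_› hG
  rw [← rankS_eq] at h2 h3 h4
  rw [← rankG_eq] at h3 h4
  refine ⟨k + 1, h1, Nat.succ_le_succ h2, h3, fun hb => ⟨(h4 hb).1, fun hg => (h4 hb).2 ?_⟩⟩
  exact toGenTr U hU
    (fun U => Pool.Agent.H77.BCP.pf_RKB U (Pool.Agent.H77.BCP.pf_RKA U)) hg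

end Pool.Agent.Results.MP_9d0bb7_lc.TypesDE
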